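import Pool.Agent.P.MP_7aad9f_nt.ExcMain

set_option autoImplicit false

namespace Pool.Agent.Results.MP_7aad9f_nt.Exceptional

/-- Exceptional set in the abc conjecture: for `1 ≤ lam ≤ 6/5` the number of coprime positive
`a + b = c ≤ X` with `rad(abc) ≤ c^lam` is `O(X^(lam/2 + 1/18 + ε))`; exponent `5/9` at `lam = 1`. -/
theorem result (lam : ℝ) (h1 : 1 ≤ lam) (h2 : lam ≤ 6 / 5) (ε : ℝ) (hε : 0 < ε) :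
    ∃ C : ℝ, ∀ X : ℕ, 1 ≤ X → ∀ S : Finset (ℕ × ℕ × ℕ),
      (∀ q ∈ S, 0 < q.1 ∧ 0 < q.2.1 ∧ Nat.Coprime q.1 q.2.1 ∧ q.1 + q.2.1 = q.2.2 ∧ q.2.2 ≤ X ∧
        ((∏ p ∈ (q.1 * q.2.1 * q.2.2).primeFactors, p : ℕ) : ℝ) ≤ (q.2.2 : ℝ) ^ lam) →
      (S.card : ℝ) ≤ C * (X : ℝ) ^ (lam / 2 + 1 / 18 + ε) := by
  obtain ⟨C, hC⟩ := Pool.Agent.P.MP_7aad9f_nt.Exc.main lam h1 h2 ε hε
  refine ⟨C, fun X hX S hS => le_trans ?_ (hC X hX)⟩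
  refine Nat.cast_le.2 (Finset.card_le_card fun q hq => ?_)
  obtain ⟨a1, a2, a3, a4, a5, a6⟩ := hS q hq
  simp only [Finset.mem_filter, Finset.mem_product, Finset.mem_Icc]
  exact ⟨⟨⟨a1, by omega⟩, ⟨a2, by omega⟩, ⟨by omega, a5⟩⟩, a3, a4, a6⟩

end Pool.Agent.Results.MP_7aad9f_nt.Exceptional
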