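import Pool.Agent.P.MP_09c11a_nt.W.All
import Pool.Agent.P.MP_7aad9f_nt.LP.Prim

/-! A primitive prime divisor of `a ^ n - b ^ n` above `n ^ 1.279`. -/

theorem Pool.Agent.Results.MP_7aad9f_nt.LargestPrime.result :
    ∀ a b : ℕ, 0 < b → b < a → a.Coprime b → ∃ n₀ : ℕ, ∀ n : ℕ, n₀ ≤ n → ∃ p : ℕ, p.Prime ∧
      p ∣ a ^ n - b ^ n ∧ (∀ d, 0 < d → d < n → ¬p ∣ a ^ d - b ^ d) ∧
      (n : ℝ) ^ (1.279 : ℝ) < p :=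
  fun _ _ hb hab cop =>
    Pool.Agent.P.MP_7aad9f_nt.LP.lpf_main hb hab cop Pool.Agent.P.MP_09c11a_nt.W.h_CORE
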