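import Pool.Agent.P.MP_7aad9f_nt.SubFinal

set_option autoImplicit false

namespace Pool.Agent.Results.MP_7aad9f_nt.Subexponential

/-- For every `ε > 0` there is `K` such that every abc triple satisfies
`log c ≤ K * rad (a b c) ^ ε`. -/
theorem result : ∀ ε : ℝ, 0 < ε → ∃ K : ℝ, ∀ a b c : ℕ, 0 < a → 0 < b → Nat.Coprime a b →
    a + b = c → Real.log c ≤ K * ((∏ p ∈ (a * b * c).primeFactors, p : ℕ) : ℝ) ^ ε :=
  Pool.Agent.P.MP_7aad9f_nt.Sub.main_final

end Pool.Agent.Results.MP_7aad9f_nt.Subexponential
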