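import Pool.Agent.P.MP_7aad9f_nt.Sz.Final

set_option autoImplicit false

namespace Pool.Agent.Results.MP_7aad9f_nt.SzpiroHalf

/-- For every `ε > 0` there is `K` such that all integers `x, y` with `k = x ^ 3 - y ^ 2 ≠ 0`
satisfy `log max (|x| ^ 3, y ^ 2) ≤ log gcd (x ^ 3, y ^ 2) + K * √D * R ^ ε`, where `R` is the
product of the primes dividing `k` and `D` is the product over these primes of `p ^ 2` if `p ∣ x`,
of `p` if `p ∤ x` and the exponent of `p` in `k` is odd, and of `1` otherwise. -/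
theorem result : ∀ ε : ℝ, 0 < ε → ∃ K : ℝ, ∀ x y : ℤ, x ^ 3 ≠ y ^ 2 →
    Real.log (max (|(x : ℝ)| ^ 3) ((y : ℝ) ^ 2)) ≤ Real.log (Int.gcd (x ^ 3) (y ^ 2)) +
      K * Real.sqrt (∏ p ∈ (x ^ 3 - y ^ 2).natAbs.primeFactors,
        if (p : ℤ) ∣ x then (p : ℝ) ^ 2
        else if Odd ((x ^ 3 - y ^ 2).natAbs.factorization p) then (p : ℝ) else 1) *
      (∏ p ∈ (x ^ 3 - y ^ 2).natAbs.primeFactors, (p : ℝ)) ^ ε :=
  Pool.Agent.P.MP_7aad9f_nt.Sz.final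

end Pool.Agent.Results.MP_7aad9f_nt.SzpiroHalf
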